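import Pool.Agent.H516R3.Sat.Fin
import Pool.Agent.H516R3.Sat.Stmt

set_option autoImplicit false
set_option linter.all false

open scoped InnerProductSpace
open Filter Topology

noncomputable section

namespace Pool.Agent.Results.MP_1eccf6_an.NotSaturated

open Pool.Agent.H516R3.Sat Pool.Agent.H516R3.Sat.Stmt

lemma finRank_of {T : B} (h : IsFiniteRank T) : FinRank (H := HH) T := by
  obtain ⟨V, hV, hT⟩ := h
  have hle : LinearMap.range ((show HH →L[ℂ] HH from T) : HH →ₗ[ℂ] HH) ≤ (V : Submodule ℂ HH) := by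
    rintro _ ⟨x, rfl⟩
    exact hT x
  exact @Submodule.finiteDimensional_of_le ℂ HH _ _ _ _ V hV hle

lemma isFiniteRank_of {T : HH →L[ℂ] HH} (h : FinRank (H := HH) T) : IsFiniteRank T :=
  ⟨LinearMap.range (T : HH →ₗ[ℂ] HH), h, fun x => ⟨x, rfl⟩⟩

/-- the ideal in the statement layer -/
def I0 : NIdeal where
  carrier := (macaev HH).carrier
  nrm := mnrm (H := HH)
  ideal := fun A X C hX => (macaev HH).mul_mem A X C hX
  finRank_mem := fun X hX => (macaev HH).finRank_mem X (finRank_of hX)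
  isCpt := fun X hX => (macaev HH).isCompact X hX
  isNorm := ⟨fun X hX => ⟨(macaev HH).nrm_nonneg X hX, (macaev HH).nrm_eq_zero X hX⟩,
    fun X hX Y hY => (macaev HH).nrm_add_le X hX Y hY, fun c X hX => (macaev HH).nrm_smul c X hX⟩
  isSymm := fun A X C hX => (macaev HH).nrm_mul_le A X C hX
  isComplete := fun u hu hc => (macaev HH).complete u hu hc

/-- the tuple -/
def tau0 : Fin 4 → B := Fin.tau

lemma commutantMod_eq : commutantMod I0 tau0 = commMod Fin.II Fin.tau := rfl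

lemma norm_proj (T : B) : ‖proj T‖ = ‖(toCalkin (H := HH) T)‖ := by
  change sInf {r | ∃ S : B, proj S = proj T ∧ r = ‖S‖} = _
  refine le_antisymm ?_ ?_
  · refine le_of_forall_pos_lt_add fun ε hε => ?_
    obtain ⟨m, hm, hlt⟩ := Submodule.Quotient.norm_mk_lt (S := compactIdeal HH)
      (toCalkin (H := HH) T) hε
    refine lt_of_le_of_lt (csInf_le ⟨0, ?_⟩ ⟨m, ?_, rfl⟩) hlt
    · rintro r ⟨S, _, rfl⟩
      exact norm_nonneg S
    · exact hm
  · refine le_csInf ⟨‖T‖, T, rfl, rfl⟩ ?_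
    rintro r ⟨S, hS, rfl⟩
    have h : toCalkin (H := HH) S = toCalkin (H := HH) T := hS
    rw [← h]
    exact norm_toCalkin_le (H := HH) S

lemma kI_eq : kI I0 tau0 = kMod Fin.II Fin.tau := by
  unfold kI kMod
  congr 1
  ext C
  constructor
  · rintro ⟨A, ⟨h1, h2, h3⟩, h4⟩
    exact ⟨A, fun m => finRank_of (h1 m).1, fun m => (h1 m).2, h2, h3, h4⟩
  · rintro ⟨A, h1, h2, h3, h4, h5⟩
    exact ⟨A, ⟨fun m => ⟨isFiniteRank_of (h1 m), h2 m⟩, h3, h4⟩, h5⟩

/-- `E(τ; I)` as a star subalgebra of `B` -/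
def E0 : StarSubalgebra ℂ B where
  carrier := commutantMod I0 tau0
  mul_mem' := fun {X Y} hX hY => Fin.EE.mul_mem' (a := X) (b := Y) hX hY
  add_mem' := fun {X Y} hX hY => Fin.EE.add_mem' (a := X) (b := Y) hX hY
  algebraMap_mem' := fun c => Fin.EE.algebraMap_mem' c
  star_mem' := fun {X} hX => Fin.EE.star_mem' (a := X) hX

/-- `p(E(τ; I))` -/
def pE0 : Set Calk := proj '' commutantMod I0 tau0

lemma pE0_coe : pE0 = proj '' commutantMod I0 tau0 := rfl

lemma pE0_star : IsStarSubalgebra pE0 := by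
  refine ⟨⟨1, E0.one_mem, map_one _⟩, ?_, ?_⟩
  · rintro _ ⟨X, hX, rfl⟩ _ ⟨Y, hY, rfl⟩
    exact ⟨⟨X + Y, E0.add_mem (x := X) (y := Y) hX hY, map_add _ _ _⟩,
      ⟨X * Y, E0.mul_mem (x := X) (y := Y) hX hY, map_mul _ _ _⟩⟩
  · rintro _ ⟨X, hX, rfl⟩
    exact ⟨⟨star X, E0.star_mem' (a := X) hX, proj_star X⟩,
      fun c => ⟨c • X, E0.smul_mem (x := X) hX c, rfl⟩⟩

/-- the projection onto the `k`-th copy -/
def eB (k : ℕ) : B := ee k

/-- the projection onto the first `m` copies -/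
def pB (m : ℕ) : B := PP m

/-- the type: `P₀ = 1 - x`, `P_{k+1} = x e_k - e_k`. -/
def typ : ℕ → DegOne Calk
  | 0 => ⟨1, [⟨-1, 0, false, 1⟩]⟩
  | k + 1 => ⟨-proj (eB k), [⟨1, 0, false, proj (eB k)⟩]⟩

/-- the values -/
def typK : ℕ → Set ℝ
  | 0 => Set.Icc 1 2
  | _ + 1 => {0}

lemma typ_zero_eval (x : ℕ → Calk) : (typ 0).eval x = 1 - x 0 := by
  unfold DegOne.eval typ
  simp [sub_eq_add_neg]

lemma typ_succ_eval (k : ℕ) (x : ℕ → Calk) :
    (typ (k + 1)).eval x = x 0 * proj (eB k) - proj (eB k) := by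
  unfold DegOne.eval typ
  simp [sub_eq_add_neg, add_comm]

lemma one_mem0 : (1 : B) ∈ commutantMod I0 tau0 := E0.one_mem

lemma typ_coeffs (k : ℕ) : (typ k).CoeffsIn pE0 := by
  rw [pE0_coe]
  cases k with
  | zero =>
    refine ⟨⟨1, one_mem0, map_one _⟩, ?_⟩
    intro t ht
    simp only [typ, List.mem_singleton] at ht
    subst ht
    exact ⟨⟨-1, E0.neg_mem one_mem0, by rw [map_neg, map_one]⟩, ⟨1, one_mem0, map_one _⟩⟩
  | succ k =>
    refine ⟨⟨-(eB k), E0.neg_mem (x := (eB k)) (Fin.ee_mem k), by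
      rw [map_neg]; rfl⟩, ?_⟩
    intro t ht
    simp only [typ, List.mem_singleton] at ht
    subst ht
    exact ⟨⟨1, one_mem0, map_one _⟩, ⟨eB k, Fin.ee_mem k, rfl⟩⟩

lemma norm_proj_le (T : B) : ‖proj T‖ ≤ ‖T‖ := by
  rw [norm_proj]
  exact norm_toCalkin_le (H := HH) T

lemma norm_proj_eq_zero {T : B} (h : ‖proj T‖ = 0) : IsCompactOperator (show HH →L[ℂ] HH from T) := by
  rw [norm_proj, norm_eq_zero] at h
  exact toCalkin_eq_zero_iff.mp h

lemma norm_proj_of_cpt {T : B} (h : IsCompactOperator (show HH →L[ℂ] HH from T)) : ‖proj T‖ = 0 := by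
  rw [norm_proj, norm_eq_zero]
  exact toCalkin_eq_zero_iff.mpr h

lemma typ_approx (N : ℕ) (hN : 0 < N) : ∃ b : ℕ → Calk,
    (∀ i, b i ∈ pE0 ∧ ‖b i‖ ≤ 1) ∧
      ∀ k ≤ N, ∃ r ∈ typK k, |‖(typ k).eval b‖ - r| < 1 / (N : ℝ) := by
  refine ⟨fun _ => proj (pB N), fun i => ⟨⟨pB N, Fin.PP_mem N, rfl⟩, ?_⟩, ?_⟩
  · exact (norm_proj_le _).trans (mulOp_norm_le _ (cutF_le N))
  · intro k hk
    cases k with
    | zero =>
      have h0 : (typ 0).eval (fun _ => proj (pB N)) = proj (1 - (pB N)) := by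
        rw [typ_zero_eval, map_sub, map_one]
      refine ⟨‖proj (1 - (pB N))‖, ⟨?_, ?_⟩, ?_⟩
      · rw [norm_proj]
        exact one_le_norm N
      · refine (norm_proj_le _).trans ((norm_sub_le _ _).trans ?_)
        have h1 : ‖(1 : HH →L[ℂ] HH)‖ ≤ 1 := ContinuousLinearMap.norm_id_le
        have h2 : ‖PP N‖ ≤ 1 := mulOp_norm_le _ _
        have h3 : ‖(1 : B)‖ ≤ 1 := h1
        have h4 : ‖(pB N)‖ ≤ 1 := h2
        linarith
      · rw [h0, sub_self, abs_zero]
        positivity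
    | succ k =>
      refine ⟨0, rfl, ?_⟩
      have h0 : (pB N) * (eB k) = eB k := PP_mul_ee (by omega)
      have h1 : (typ (k + 1)).eval (fun _ => proj (pB N)) = 0 := by
        rw [typ_succ_eval]
        have h2 := map_mul proj (pB N) (eB k)
        rw [h0] at h2
        exact sub_eq_zero.mpr h2.symm
      have h2 : ‖(0 : Calk)‖ = 0 := by
        have := norm_proj_of_cpt (T := 0) isCompactOperator_zero
        rwa [map_zero] at this
      rw [h1, h2, sub_zero, abs_zero]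
      positivity

lemma not_sat0 : ¬ CountablyDegreeOneSaturated pE0 := by
  intro h
  have hcpt : ∀ k, IsCompact (typK k) := by
    intro k
    cases k with
    | zero => exact isCompact_Icc
    | succ k => exact isCompact_singleton
  obtain ⟨b, hb, hbK⟩ := h typ typK typ_coeffs hcpt typ_approx
  obtain ⟨Y, hY, hYb⟩ := (hb 0).1
  have hYb' : proj Y = b 0 := hYb
  let Y' : HH →L[ℂ] HH := Y
  have h1 : ∀ k, IsCompactOperator ((1 - Y') * ee k : HH →L[ℂ] HH) := by
    intro k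
    have h2 := hbK (k + 1)
    rw [typ_succ_eval] at h2
    have h3 : ‖b 0 * proj (eB k) - proj (eB k)‖ = 0 := h2
    rw [← hYb', ← map_mul, ← map_sub] at h3
    have h4 : (1 - Y') * ee k = -(Y' * ee k - ee k) := by noncomm_ring
    rw [h4]
    have h5 : IsCompactOperator (Y' * ee k - ee k : HH →L[ℂ] HH) := norm_proj_eq_zero h3
    exact h5.neg
  have h2 : ∀ m, IsCompactOperator ((1 - Y') * PP m : HH →L[ℂ] HH) := by
    intro m
    induction m with
    | zero =>
      rw [PP_zero, mul_zero]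
      exact isCompactOperator_zero
    | succ m ih =>
      rw [PP_succ, mul_add]
      exact ih.add (h1 m)
  have hY1 : (1 - Y') ∈ commMod Fin.II Fin.tau := Fin.EE.sub_mem Fin.one_mem_comm hY
  have h3 : IsCompactOperator (1 - Y' : HH →L[ℂ] HH) :=
    compact_of_cut orthIso_SS cut_PP (1 - Y') h2 (Fin.comm_mem hY1)
  have h4 := hbK 0
  have h6 : ‖proj (1 - Y)‖ = 0 := norm_proj_of_cpt h3
  rw [typ_zero_eval, ← hYb', ← map_one proj, ← map_sub, h6] at h4
  have h5 : (1 : ℝ) ≤ 0 := h4.1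
  linarith

lemma separable_Hil : TopologicalSpace.SeparableSpace Hil := Fin.separable_HH

lemma not_finiteDimensional_Hil : ¬ FiniteDimensional ℂ Hil := Fin.not_finiteDimensional_HH

/-- For the infinite-dimensional separable Hilbert space `H = ℓ²(List Bool × ℕ)` there are a normed
ideal `I` (normalised by `|X| = ‖X‖` for rank one operators) in which the finite rank operators are
dense, and a 4-tuple `τ` of self-adjoint operators with `0 < k_I(τ) < ∞` such that `p(E(τ; I))` is a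
*-subalgebra of the Calkin algebra which is not countably degree-1 saturated. -/
theorem result : TopologicalSpace.SeparableSpace Hil ∧ ¬ FiniteDimensional ℂ Hil ∧
    ∃ (I : NIdeal) (τ : Fin 4 → B),
      FiniteRankDense I ∧ Normalised I ∧ (∀ j, star (τ j) = τ j) ∧
      0 < kI I τ ∧ kI I τ < ⊤ ∧
      IsStarSubalgebra (proj '' commutantMod I τ) ∧
      ¬ CountablyDegreeOneSaturated (proj '' commutantMod I τ) := by
  refine ⟨separable_Hil, not_finiteDimensional_Hil, I0, tau0, ?_, ?_, Fin.star_tau, ?_, ?_,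
    pE0_star, not_sat0⟩
  · intro X hX ε hε
    obtain ⟨F, hF, h⟩ := (Fin.mem_II.mp hX).2 ε hε
    exact ⟨F, isFiniteRank_of hF, h⟩
  · intro X a b h
    exact Fin.nrm_rankOne X a b h
  · rw [kI_eq]; exact Fin.kMod_pos
  · rw [kI_eq]; exact Fin.kMod_lt_top

end Pool.Agent.Results.MP_1eccf6_an.NotSaturated
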